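import Mathlib

set_option autoImplicit false

namespace Pool.Agent.Results.MP_654fb7_co.FractionalTDim

open Finset Filter Topology

/-- The two-layer order `Q_n^{1,k}`: all singletons and all `k`-subsets of an `n`-element set,
ordered by inclusion (the order inherited from `Finset`). -/
abbrev Q (n k : ℕ) : Type := {A : Finset (Fin n) // A.card = 1 ∨ A.card = k}

/-- `w` is a fractional `t`-realiser of the finite poset `P`: a nonnegative weighting of the maps
from `P` to the chain with `t` elements, supported on the monotone ones, such that for every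
ordered pair `(x, y)` with `x ≱ y` the maps with `f x < f y` have total weight at least one. -/
structure IsRealiser {P : Type} [Fintype P] [DecidableEq P] [PartialOrder P] (t : ℕ)
    (w : (P → Fin t) → ℝ) : Prop where
  nonneg : ∀ f, 0 ≤ w f
  mono : ∀ f, ¬ Monotone f → w f = 0
  cover : ∀ x y : P, ¬ x ≥ y →
    1 ≤ ∑ f ∈ univ.filter (fun f : P → Fin t => f x < f y), w f

/-- The fractional `t`-dimension: the least total weight of a fractional `t`-realiser. -/
noncomputable def fdim (P : Type) [Fintype P] [DecidableEq P] [PartialOrder P] (t : ℕ) : ℝ :=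
  sInf {s : ℝ | ∃ w : (P → Fin t) → ℝ, IsRealiser t w ∧ s = ∑ f, w f}

/-- The sequence `c_1 = 0`, `c_{t+1} = (1/(k+1)) (k / ((k+1)(1-c_t)))^k` (and `c_0 = 0`). -/
noncomputable def c (k : ℕ) : ℕ → ℝ
  | 0 => 0
  | 1 => 0
  | (t + 2) => 1 / (k + 1) * (k / ((k + 1) * (1 - c k (t + 1)))) ^ k

/-! ### Elementary inequalities -/

lemma amgm (k : ℕ) (x b : ℝ) (hx : 0 ≤ x) (hb : 0 ≤ b) (hk : 1 ≤ k) :
    x ^ k * b ≤ ((k * x + b) / (k + 1)) ^ (k + 1) := by
  have hk0 : (0 : ℝ) < k + 1 := by positivity
  rcases hx.eq_or_lt with h | h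
  · rw [← h, zero_pow (by omega), zero_mul]
    positivity
  · set r : ℝ := ((k * x + b) / (k + 1)) / x with hr
    have hr0 : 0 ≤ r := by positivity
    have h1 := one_add_mul_le_pow (a := r - 1) (by linarith) (k + 1)
    have h2 : (1 : ℝ) + (r - 1) = r := by ring
    rw [h2] at h1
    have h3 : r * x = (k * x + b) / (k + 1) := by
      rw [hr]; field_simp
    have h4 : (1 + ((k + 1 : ℕ) : ℝ) * (r - 1)) * x = b := by
      have : (1 + ((k + 1 : ℕ) : ℝ) * (r - 1)) * x
          = x + (k + 1) * (r * x) - (k + 1) * x := by push_cast; ring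
      rw [this, h3]
      field_simp
      ring
    calc x ^ k * b = (1 + ((k + 1 : ℕ) : ℝ) * (r - 1)) * x ^ (k + 1) := by
          rw [← h4]; ring
      _ ≤ r ^ (k + 1) * x ^ (k + 1) := mul_le_mul_of_nonneg_right h1 (by positivity)
      _ = ((k * x + b) / (k + 1)) ^ (k + 1) := by rw [← mul_pow, h3]

lemma c_bd (k : ℕ) (hk : 1 ≤ k) (t : ℕ) : 0 ≤ c k t ∧ c k t ≤ 1 / (k + 1) := by
  have hk0 : (0 : ℝ) < k := by exact_mod_cast hk
  induction t with
  | zero => simp only [c]; constructor <;> positivity
  | succ t ih =>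
    cases t with
    | zero => simp only [c]; constructor <;> positivity
    | succ t =>
      obtain ⟨h0, h1⟩ := ih
      have h2 : (k : ℝ) / (k + 1) ≤ 1 - c k (t + 1) := by
        have : (k : ℝ) / (k + 1) = 1 - 1 / (k + 1) := by field_simp; ring
        rw [this]; linarith
      have h3 : 0 < (k : ℝ) / (k + 1) := by positivity
      have h4 : 0 < 1 - c k (t + 1) := by linarith
      have h5 : (k : ℝ) ≤ (k + 1) * (1 - c k (t + 1)) := by
        have := mul_le_mul_of_nonneg_left h2 (show (0 : ℝ) ≤ k + 1 by positivity)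
        have h6 : ((k : ℝ) + 1) * (k / (k + 1)) = k := by field_simp
        linarith
      have h7 : (k : ℝ) / ((k + 1) * (1 - c k (t + 1))) ≤ 1 := by
        rw [div_le_one (by positivity)]; exact h5
      have h8 : 0 ≤ (k : ℝ) / ((k + 1) * (1 - c k (t + 1))) := by positivity
      simp only [c]
      constructor
      · positivity
      · have := pow_le_one₀ (n := k) h8 h7
        have h9 : (0 : ℝ) ≤ 1 / (k + 1) := by positivity
        calc 1 / ((k : ℝ) + 1) * (k / ((k + 1) * (1 - c k (t + 1)))) ^ k
            ≤ 1 / ((k : ℝ) + 1) * 1 := mul_le_mul_of_nonneg_left this h9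
          _ = 1 / (k + 1) := mul_one _

lemma one_sub_c_pos (k : ℕ) (hk : 1 ≤ k) (t : ℕ) : 0 < 1 - c k t := by
  have := (c_bd k hk t).2
  have hk0 : (0 : ℝ) < k := by exact_mod_cast hk
  have h : 1 / ((k : ℝ) + 1) < 1 := by rw [div_lt_one (by positivity)]; linarith
  linarith

lemma c_pos (k : ℕ) (hk : 1 ≤ k) (t : ℕ) : 0 < c k (t + 2) := by
  have h := one_sub_c_pos k hk (t + 1)
  have hk0 : (0 : ℝ) < k := by exact_mod_cast hk
  simp only [c]
  positivity

lemma step (k : ℕ) (hk : 1 ≤ k) (d q N : ℝ) (hd0 : 0 ≤ d) (hd : 0 < 1 - d) (hq : 0 ≤ q)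
    (hqN : q ≤ N) :
    d * q ^ (k + 1) + (N - q) * q ^ k
      ≤ (1 / (k + 1) * (k / ((k + 1) * (1 - d))) ^ k) * N ^ (k + 1) := by
  have hk0 : (0 : ℝ) < k := by exact_mod_cast hk
  have hb : 0 ≤ N - (1 - d) * q := by nlinarith
  have hx : 0 ≤ (1 - d) * q / k := by positivity
  have h1 := amgm k ((1 - d) * q / k) (N - (1 - d) * q) hx hb hk
  have h2 : (k : ℝ) * ((1 - d) * q / k) + (N - (1 - d) * q) = N := by
    field_simp; ring
  rw [h2] at h1
  have h3 : d * q ^ (k + 1) + (N - q) * q ^ k
      = (k / (1 - d)) ^ k * (((1 - d) * q / k) ^ k * (N - (1 - d) * q)) := by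
    have : (k / (1 - d)) ^ k * ((1 - d) * q / k) ^ k = q ^ k := by
      rw [← mul_pow]
      congr 1
      field_simp
    rw [← mul_assoc, this]
    ring
  have h4 : (1 / (k + 1) * (k / ((k + 1) * (1 - d))) ^ k) * N ^ (k + 1)
      = (k / (1 - d)) ^ k * (N / (k + 1)) ^ (k + 1) := by
    have e1 : (k : ℝ) / ((k + 1) * (1 - d)) = (k / (1 - d)) * (1 / (k + 1)) := by
      field_simp
    have e2 : N / ((k : ℝ) + 1) = N * (1 / (k + 1)) := by ring
    rw [e1, e2, mul_pow, mul_pow, pow_succ (1 / ((k : ℝ) + 1))]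
    ring
  rw [h3, h4]
  exact mul_le_mul_of_nonneg_left h1 (by positivity)

/-! ### The counting lemma -/

lemma count {ι : Type} [DecidableEq ι] (k : ℕ) (hk : 1 ≤ k) (a : ι → ℕ) (t : ℕ) :
    ∀ A : Finset ι, (∀ i ∈ A, a i < t) →
      ∑ i ∈ A, ((#{j ∈ A | a j < a i} : ℕ) : ℝ) ^ k ≤ c k t * (#A : ℝ) ^ (k + 1) := by
  induction t with
  | zero =>
    intro A hA
    have : A = ∅ := by
      apply Finset.eq_empty_of_forall_notMem
      intro i hi
      exact absurd (hA i hi) (by omega)
    subst this
    simp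
  | succ t ih =>
    cases t with
    | zero =>
      intro A hA
      have h1 : ∀ i ∈ A, ((#{j ∈ A | a j < a i} : ℕ) : ℝ) ^ k = 0 := by
        intro i hi
        have : ({j ∈ A | a j < a i} : Finset ι) = ∅ := by
          apply Finset.filter_eq_empty_iff.mpr
          intro j hj
          have := hA i hi
          omega
        rw [this]
        simp
        omega
      rw [Finset.sum_eq_zero h1]
      simp [c]
    | succ t =>
      intro A hA
      set A' : Finset ι := A.filter (fun i => a i < t + 1) with hA'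
      have hsub : A' ⊆ A := Finset.filter_subset _ _
      have h1 := Finset.sum_filter_add_sum_filter_not A (fun i => a i < t + 1)
        (fun i => ((#{j ∈ A | a j < a i} : ℕ) : ℝ) ^ k)
      rw [← h1]
      have h2 : ∑ i ∈ A', ((#{j ∈ A | a j < a i} : ℕ) : ℝ) ^ k
          = ∑ i ∈ A', ((#{j ∈ A' | a j < a i} : ℕ) : ℝ) ^ k := by
        apply Finset.sum_congr rfl
        intro i hi
        have hi' : a i < t + 1 := (Finset.mem_filter.mp hi).2
        congr 3
        ext j
        simp only [hA', Finset.mem_filter]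
        constructor
        · rintro ⟨h1, h2⟩; exact ⟨⟨h1, by omega⟩, h2⟩
        · rintro ⟨⟨h1, _⟩, h2⟩; exact ⟨h1, h2⟩
      have h3 : ∑ i ∈ A.filter (fun i => ¬ a i < t + 1), ((#{j ∈ A | a j < a i} : ℕ) : ℝ) ^ k
          = ((#A : ℝ) - #A') * (#A' : ℝ) ^ k := by
        have : ∀ i ∈ A.filter (fun i => ¬ a i < t + 1),
            ((#{j ∈ A | a j < a i} : ℕ) : ℝ) ^ k = (#A' : ℝ) ^ k := by
          intro i hi
          obtain ⟨hi1, hi2⟩ := Finset.mem_filter.mp hi
          have hi3 := hA i hi1
          have hi4 : a i = t + 1 := by omega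
          rw [hi4]
        rw [Finset.sum_congr rfl this, Finset.sum_const, nsmul_eq_mul]
        congr 1
        have h4 := Finset.card_filter_add_card_filter_not (s := A) (fun i => a i < t + 1)
        have h5 : (#A' : ℝ) + (#(A.filter (fun i => ¬ a i < t + 1)) : ℝ) = #A := by
          exact_mod_cast h4
        linarith
      rw [h2, h3]
      have h4 := ih A' (fun i hi => (Finset.mem_filter.mp hi).2)
      have h5 := step k hk (c k (t + 1)) (#A') (#A) (c_bd k hk _).1 (one_sub_c_pos k hk _)
        (by positivity) (by exact_mod_cast Finset.card_le_card hsub)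
      calc _ ≤ c k (t + 1) * (#A' : ℝ) ^ (k + 1) + ((#A : ℝ) - #A') * (#A' : ℝ) ^ k := by
            linarith
        _ ≤ _ := h5
        _ = c k (t + 2) * (#A : ℝ) ^ (k + 1) := by simp only [c]

/-! ### The lower bound -/

/-- the label of a set as a natural number, zero outside the order -/
def ex {n k t : ℕ} (f : Q n k → Fin t) (S : Finset (Fin n)) : ℕ :=
  if h : S.card = 1 ∨ S.card = k then (f ⟨S, h⟩ : ℕ) else 0

lemma ex_lt {n k t : ℕ} (f : Q n k → Fin t) (i : Fin n) : ex f {i} < t := by
  have h : ({i} : Finset (Fin n)).card = 1 ∨ ({i} : Finset (Fin n)).card = k :=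
    Or.inl (Finset.card_singleton i)
  rw [ex, dif_pos h]
  exact (f _).isLt

lemma pair_cover {n k t : ℕ} (w : (Q n k → Fin t) → ℝ) (hw : IsRealiser t w)
    (i : Fin n) (S : Finset (Fin n)) (hS : S ∈ powersetCard k (univ.erase i)) :
    1 ≤ ∑ f : Q n k → Fin t, if ex f S < ex f {i} then w f else 0 := by
  obtain ⟨hS1, hS2⟩ := Finset.mem_powersetCard.mp hS
  have h1 : ({i} : Finset (Fin n)).card = 1 ∨ ({i} : Finset (Fin n)).card = k :=
    Or.inl (Finset.card_singleton i)
  have h := hw.cover ⟨S, Or.inr hS2⟩ ⟨{i}, h1⟩ (by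
    intro hge
    have : ({i} : Finset (Fin n)) ⊆ S := hge
    have := hS1 (this (Finset.mem_singleton_self i))
    simp at this)
  rw [← Finset.sum_filter]
  refine h.trans (le_of_eq ?_)
  apply Finset.sum_congr _ (fun _ _ => rfl)
  ext f
  simp only [Finset.mem_filter, Finset.mem_univ, true_and]
  rw [ex, dif_pos (Or.inr hS2), ex, dif_pos h1]
  exact Iff.rfl

lemma count_pairs {n k t : ℕ} (f : Q n k → Fin t) (hf : Monotone f) (i : Fin n) :
    #{S ∈ powersetCard k (univ.erase i) | ex f S < ex f {i}}
      ≤ (#{j : Fin n | ex f {j} < ex f {i}}).choose k := by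
  rw [← Finset.card_powersetCard]
  apply Finset.card_le_card
  intro S hS
  obtain ⟨hS0, hlt⟩ := Finset.mem_filter.mp hS
  obtain ⟨hS1, hS2⟩ := Finset.mem_powersetCard.mp hS0
  rw [Finset.mem_powersetCard]
  refine ⟨?_, hS2⟩
  intro j hj
  simp only [Finset.mem_filter, Finset.mem_univ, true_and]
  refine lt_of_le_of_lt ?_ hlt
  have h1 : ({j} : Finset (Fin n)).card = 1 ∨ ({j} : Finset (Fin n)).card = k :=
    Or.inl (Finset.card_singleton j)
  rw [ex, dif_pos h1, ex, dif_pos (Or.inr hS2)]
  have : (⟨{j}, h1⟩ : Q n k) ≤ ⟨S, Or.inr hS2⟩ := by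
    show ({j} : Finset (Fin n)) ⊆ S
    rw [Finset.singleton_subset_iff]; exact hj
  exact hf this

lemma lower {n k t : ℕ} (hk : 1 ≤ k) (hn : k < n) (w : (Q n k → Fin t) → ℝ)
    (hw : IsRealiser t w) :
    (n : ℝ) * ((n : ℝ) - k) ^ k ≤ (∑ f, w f) * (c k t * (n : ℝ) ^ (k + 1)) := by
  have h1 : (n : ℝ) * ((n - 1).choose k : ℝ)
      ≤ ∑ i : Fin n, ∑ S ∈ powersetCard k (univ.erase i),
        ∑ f : Q n k → Fin t, if ex f S < ex f {i} then w f else 0 := by
    have : (n : ℝ) * ((n - 1).choose k : ℝ)
        = ∑ i : Fin n, ∑ S ∈ powersetCard k ((univ : Finset (Fin n)).erase i), (1 : ℝ) := by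
      simp only [Finset.sum_const, Finset.card_powersetCard, nsmul_eq_mul, mul_one,
        Finset.card_erase_of_mem (Finset.mem_univ _), Finset.card_univ, Fintype.card_fin]
    rw [this]
    exact Finset.sum_le_sum fun i _ => Finset.sum_le_sum fun S hS => pair_cover w hw i S hS
  have h2 : ∑ i : Fin n, ∑ S ∈ powersetCard k (univ.erase i),
        ∑ f : Q n k → Fin t, (if ex f S < ex f {i} then w f else 0)
      = ∑ f : Q n k → Fin t, w f *
        ∑ i : Fin n, (#{S ∈ powersetCard k (univ.erase i) | ex f S < ex f {i}} : ℝ) := by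
    have e1 : ∀ i : Fin n, ∑ S ∈ powersetCard k (univ.erase i),
        ∑ f : Q n k → Fin t, (if ex f S < ex f {i} then w f else 0)
        = ∑ f : Q n k → Fin t,
          w f * (#{S ∈ powersetCard k (univ.erase i) | ex f S < ex f {i}} : ℝ) := by
      intro i
      rw [Finset.sum_comm]
      apply Finset.sum_congr rfl
      intro f _
      rw [← Finset.sum_filter, Finset.sum_const, nsmul_eq_mul, mul_comm]
    rw [Finset.sum_congr rfl (fun i _ => e1 i), Finset.sum_comm]
    apply Finset.sum_congr rfl
    intro f _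
    rw [Finset.mul_sum]
  rw [h2] at h1
  have h3 : ∀ f : Q n k → Fin t, w f * ((k.factorial : ℝ) *
        ∑ i : Fin n, (#{S ∈ powersetCard k (univ.erase i) | ex f S < ex f {i}} : ℝ))
      ≤ w f * (c k t * (n : ℝ) ^ (k + 1)) := by
    intro f
    by_cases hf : Monotone f
    · apply mul_le_mul_of_nonneg_left _ (hw.nonneg f)
      have h4 := count k hk (fun j : Fin n => ex f {j}) t univ (fun i _ => ex_lt f i)
      simp only [Finset.card_univ, Fintype.card_fin] at h4
      refine le_trans ?_ h4
      rw [Finset.mul_sum]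
      apply Finset.sum_le_sum
      intro i _
      have h5 : k.factorial * #{S ∈ powersetCard k (univ.erase i) | ex f S < ex f {i}}
          ≤ (#{j : Fin n | ex f {j} < ex f {i}}) ^ k := by
        calc k.factorial * #{S ∈ powersetCard k (univ.erase i) | ex f S < ex f {i}}
            ≤ k.factorial * (#{j : Fin n | ex f {j} < ex f {i}}).choose k :=
              Nat.mul_le_mul_left _ (count_pairs f hf i)
          _ = (#{j : Fin n | ex f {j} < ex f {i}}).descFactorial k :=
              (Nat.descFactorial_eq_factorial_mul_choose _ _).symm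
          _ ≤ _ := Nat.descFactorial_le_pow _ _
      exact_mod_cast h5
    · rw [hw.mono f hf]; simp
  have h6 : (k.factorial : ℝ) * ((n : ℝ) * ((n - 1).choose k : ℝ))
      ≤ (∑ f, w f) * (c k t * (n : ℝ) ^ (k + 1)) := by
    calc (k.factorial : ℝ) * ((n : ℝ) * ((n - 1).choose k : ℝ))
        ≤ (k.factorial : ℝ) * ∑ f : Q n k → Fin t, w f *
          ∑ i : Fin n, (#{S ∈ powersetCard k (univ.erase i) | ex f S < ex f {i}} : ℝ) :=
          mul_le_mul_of_nonneg_left h1 (by positivity)
      _ = ∑ f : Q n k → Fin t, w f * ((k.factorial : ℝ) *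
          ∑ i : Fin n, (#{S ∈ powersetCard k (univ.erase i) | ex f S < ex f {i}} : ℝ)) := by
          rw [Finset.mul_sum]
          apply Finset.sum_congr rfl
          intro f _
          ring
      _ ≤ ∑ f : Q n k → Fin t, w f * (c k t * (n : ℝ) ^ (k + 1)) :=
          Finset.sum_le_sum fun f _ => h3 f
      _ = _ := by rw [Finset.sum_mul]
  refine le_trans ?_ h6
  have h7 : (n - 1 + 1 - k) ^ k ≤ (n - 1).descFactorial k := Nat.pow_sub_le_descFactorial _ _
  rw [Nat.descFactorial_eq_factorial_mul_choose] at h7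
  have h8 : ((n : ℝ) - k) ^ k ≤ (k.factorial : ℝ) * ((n - 1).choose k : ℝ) := by
    have h9 : ((n - 1 + 1 - k : ℕ) : ℝ) = (n : ℝ) - k := by
      have : n - 1 + 1 - k = n - k := by omega
      rw [this, Nat.cast_sub hn.le]
    rw [← h9]
    exact_mod_cast h7
  have h10 := mul_le_mul_of_nonneg_left h8 (show (0 : ℝ) ≤ n by positivity)
  linarith

/-! ### The upper bound -/

lemma exists_law (k : ℕ) (hk : 1 ≤ k) (t : ℕ) :
    ∃ p : ℕ → ℝ, (∀ m, 0 ≤ p m) ∧ ∑ m ∈ range (t + 1), p m = 1 ∧
      ∑ m ∈ range (t + 1), p m * (∑ l ∈ range m, p l) ^ k = c k (t + 1) := by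
  have hk0 : (0 : ℝ) < k := by exact_mod_cast hk
  induction t with
  | zero =>
    refine ⟨fun _ => 1, fun _ => zero_le_one, by simp, ?_⟩
    simp [c]
    omega
  | succ t ih =>
    obtain ⟨p, hp0, hp1, hp2⟩ := ih
    have hc := one_sub_c_pos k hk (t + 1)
    set q : ℝ := k / ((k + 1) * (1 - c k (t + 1))) with hq
    have hq0 : 0 ≤ q := by positivity
    have hq1 : q ≤ 1 := by
      have h1 := (c_bd k hk (t + 1)).2
      rw [hq, div_le_one (by positivity)]
      have h2 : (k : ℝ) / (k + 1) ≤ 1 - c k (t + 1) := by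
        have : (k : ℝ) / (k + 1) = 1 - 1 / (k + 1) := by field_simp; ring
        rw [this]; linarith
      have := mul_le_mul_of_nonneg_left h2 (show (0 : ℝ) ≤ k + 1 by positivity)
      have h6 : ((k : ℝ) + 1) * (k / (k + 1)) = k := by field_simp
      linarith
    refine ⟨fun m => if m < t + 1 then q * p m else (1 - q), ?_, ?_, ?_⟩
    · intro m
      dsimp only
      split_ifs
      · exact mul_nonneg hq0 (hp0 m)
      · linarith
    · rw [Finset.sum_range_succ]
      have : ∑ x ∈ range (t + 1), (if x < t + 1 then q * p x else 1 - q)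
          = ∑ x ∈ range (t + 1), q * p x :=
        Finset.sum_congr rfl fun x hx => by rw [if_pos (Finset.mem_range.mp hx)]
      rw [this, ← Finset.mul_sum, hp1]
      simp
    · rw [Finset.sum_range_succ]
      have hin : ∀ m, m ≤ t + 1 → ∑ l ∈ range m, (if l < t + 1 then q * p l else 1 - q)
          = q * ∑ l ∈ range m, p l := by
        intro m hm
        rw [Finset.mul_sum]
        exact Finset.sum_congr rfl fun x hx => by
          rw [if_pos (by have := Finset.mem_range.mp hx; omega)]
      have h1 : ∑ m ∈ range (t + 1), (if m < t + 1 then q * p m else 1 - q) *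
          (∑ l ∈ range m, (if l < t + 1 then q * p l else 1 - q)) ^ k
          = q ^ (k + 1) * c k (t + 1) := by
        rw [← hp2, Finset.mul_sum]
        apply Finset.sum_congr rfl
        intro m hm
        have hm' := Finset.mem_range.mp hm
        rw [if_pos hm', hin m (by omega), mul_pow]
        ring
      rw [h1, hin (t + 1) le_rfl, hp1]
      dsimp only
      rw [if_neg (lt_irrefl _)]
      have h2 : q * ((k + 1) * (1 - c k (t + 1))) = k := by
        rw [hq]; field_simp
      have h3 : q ^ (k + 1) * c k (t + 1) + (1 - q) * (q * 1) ^ k = 1 / (k + 1) * q ^ k := by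
        have h4 : (1 : ℝ) / (k + 1) = 1 - q * (1 - c k (t + 1)) := by
          have : (k : ℝ) + 1 ≠ 0 := by positivity
          field_simp
          linarith
        rw [h4, mul_one]
        ring
      rw [h3]
      simp only [c]
      rw [hq]

/-- the monotone map given by labels of the ground set -/
noncomputable def F {n k s : ℕ} (a : Fin n → Fin (s + 1)) : Q n k → Fin (s + 1) := fun x => x.1.sup a

lemma F_mono {n k s : ℕ} (a : Fin n → Fin (s + 1)) : Monotone (F (k := k) a) := by
  intro x y hxy
  exact Finset.sup_mono (show x.1 ⊆ y.1 from hxy)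

lemma prod_eval {n : ℕ} (x : Finset (Fin n)) (i : Fin n) (hi : i ∉ x) (u v : ℝ) :
    ∏ j : Fin n, (if j = i then u else if j ∈ x then v else 1) = u * v ^ x.card := by
  have h1 : ∀ j : Fin n, (if j = i then u else if j ∈ x then v else 1)
      = (if j = i then u else 1) * (if j ∈ x then v else 1) := by
    intro j
    by_cases h : j = i
    · subst h; simp [hi]
    · simp [h]
  rw [Finset.prod_congr rfl (fun j _ => h1 j), Finset.prod_mul_distrib]
  congr 1
  · simp
  · rw [Finset.prod_ite]
    simp

/-- the probability that the labels on `x` are all below the label of `i` -/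
lemma prob {n k s : ℕ} (hk : 1 ≤ k) (p : ℕ → ℝ) (hp0 : ∀ m, 0 ≤ p m)
    (hp1 : ∑ m ∈ range (s + 1), p m = 1)
    (hp2 : ∑ m ∈ range (s + 1), p m * (∑ l ∈ range m, p l) ^ k = c k (s + 1))
    (x y : Q n k) (hxy : ¬ x ≥ y) :
    c k (s + 1) ≤ ∑ a : Fin n → Fin (s + 1),
      if F (k := k) a x < F a y then ∏ j, p (a j) else 0 := by
  have hy : ¬ y.1 ⊆ x.1 := fun h => hxy h
  obtain ⟨i, hiy, hix⟩ := Finset.not_subset.mp hy
  set B : Fin (s + 1) → Fin n → Finset (Fin (s + 1)) := fun m j =>
    if j = i then {m} else if j ∈ x.1 then univ.filter (fun b => b < m) else univ with hB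
  -- the value of each box
  have hbox : ∀ m : Fin (s + 1), ∑ a ∈ Fintype.piFinset (B m), ∏ j, p (a j)
      = p m * (∑ l ∈ range m, p l) ^ x.1.card := by
    intro m
    have h1 := Finset.prod_univ_sum (B m) (fun (_ : Fin n) (b : Fin (s + 1)) => p b)
    rw [← h1, ← prod_eval x.1 i hix]
    apply Finset.prod_congr rfl
    intro j _
    simp only [hB]
    split_ifs with h1 h2
    · simp
    · -- sum over b < m
      have : (univ.filter (fun b : Fin (s + 1) => b < m)).map Fin.valEmbedding
          = range (m : ℕ) := by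
        ext l
        simp only [Finset.mem_map, Finset.mem_filter, Finset.mem_univ, true_and,
          Fin.valEmbedding_apply, Finset.mem_range]
        constructor
        · rintro ⟨b, hb, rfl⟩; exact hb
        · intro hl
          exact ⟨⟨l, by have := m.isLt; omega⟩, hl, rfl⟩
      rw [← this, Finset.sum_map]
      rfl
    · rw [Fin.sum_univ_eq_sum_range (fun b => p b), hp1]
  have hP1 : ∀ m : Fin (s + 1), ∑ l ∈ range m, p l ≤ 1 := by
    intro m
    rw [← hp1]
    apply Finset.sum_le_sum_of_subset_of_nonneg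
    · intro l hl
      have := m.isLt
      have := Finset.mem_range.mp hl
      exact Finset.mem_range.mpr (by omega)
    · intro l _ _; exact hp0 l
  have hcard : x.1.card ≤ k := by
    rcases x.2 with h | h <;> omega
  calc c k (s + 1) = ∑ m : Fin (s + 1), p m * (∑ l ∈ range m, p l) ^ k := by
        rw [← hp2, Fin.sum_univ_eq_sum_range (fun m => p m * (∑ l ∈ range m, p l) ^ k)]
    _ ≤ ∑ m : Fin (s + 1), p m * (∑ l ∈ range m, p l) ^ x.1.card := by
        apply Finset.sum_le_sum
        intro m _
        apply mul_le_mul_of_nonneg_left _ (hp0 m)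
        exact pow_le_pow_of_le_one (Finset.sum_nonneg fun l _ => hp0 l) (hP1 m) hcard
    _ = ∑ m : Fin (s + 1), ∑ a ∈ Fintype.piFinset (B m), ∏ j, p (a j) :=
        Finset.sum_congr rfl fun m _ => (hbox m).symm
    _ = ∑ a : Fin n → Fin (s + 1), ∑ m : Fin (s + 1),
          if a ∈ Fintype.piFinset (B m) then ∏ j, p (a j) else 0 := by
        rw [Finset.sum_comm]
        apply Finset.sum_congr rfl
        intro m _
        rw [← Finset.sum_filter]
        apply Finset.sum_congr _ (fun _ _ => rfl)
        ext a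
        simp
    _ ≤ _ := by
        apply Finset.sum_le_sum
        intro a _
        have hmu : 0 ≤ ∏ j, p (a j) := Finset.prod_nonneg fun j _ => hp0 _
        have h1 : ∑ m : Fin (s + 1), (if a ∈ Fintype.piFinset (B m) then ∏ j, p (a j) else 0)
            = if a ∈ Fintype.piFinset (B (a i)) then ∏ j, p (a j) else 0 := by
          apply Finset.sum_eq_single (a i)
          · intro m _ hm
            rw [if_neg]
            intro h
            have := Fintype.mem_piFinset.mp h i
            simp only [hB, if_true, Finset.mem_singleton] at this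
            exact hm this.symm
          · intro h; exact absurd (Finset.mem_univ _) h
        rw [h1]
        split_ifs with h2 h3 h3
        · exact le_rfl
        · exfalso
          apply h3
          have h4 : F (k := k) a x < a i := by
            have hpos : (⊥ : Fin (s + 1)) < a i := by
              have hne : x.1.Nonempty := by
                rw [← Finset.card_pos]
                rcases x.2 with h | h <;> omega
              obtain ⟨j, hj⟩ := hne
              have := Fintype.mem_piFinset.mp h2 j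
              have hji : j ≠ i := fun h => hix (h ▸ hj)
              simp only [hB, if_neg hji, if_pos hj, Finset.mem_filter, Finset.mem_univ,
                true_and] at this
              exact lt_of_le_of_lt bot_le this
            rw [F, Finset.sup_lt_iff hpos]
            intro j hj
            have := Fintype.mem_piFinset.mp h2 j
            have hji : j ≠ i := fun h => hix (h ▸ hj)
            simpa only [hB, if_neg hji, if_pos hj, Finset.mem_filter, Finset.mem_univ,
              true_and] using this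
          exact lt_of_lt_of_le h4 (Finset.le_sup (f := a) hiy)
        · exact hmu
        · exact le_rfl

lemma upper {n k s : ℕ} (hk : 1 ≤ k) :
    ∃ w : (Q n k → Fin (s + 2)) → ℝ, IsRealiser (s + 2) w ∧ 1 / c k (s + 2) = ∑ f, w f := by
  obtain ⟨p, hp0, hp1, hp2⟩ := exists_law k hk (s + 1)
  have hc := c_pos k hk s
  refine ⟨fun f => (1 / c k (s + 2)) * ∑ a : Fin n → Fin (s + 1 + 1),
    if F (k := k) a = f then ∏ j, p (a j) else 0, ?_, ?_⟩
  · refine ⟨?_, ?_, ?_⟩
    · intro f
      apply mul_nonneg (by positivity)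
      apply Finset.sum_nonneg
      intro a _
      split_ifs
      · exact Finset.prod_nonneg fun j _ => hp0 _
      · exact le_rfl
    · intro f hf
      rw [Finset.sum_eq_zero, mul_zero]
      intro a _
      rw [if_neg]
      rintro rfl
      exact hf (F_mono a)
    · intro x y hxy
      have h1 := prob hk p hp0 hp1 hp2 x y hxy
      rw [← Finset.mul_sum, Finset.sum_comm]
      have h2 : ∀ a : Fin n → Fin (s + 1 + 1),
          ∑ f ∈ univ.filter (fun f : Q n k → Fin (s + 2) => f x < f y),
            (if F (k := k) a = f then ∏ j, p (a j) else 0)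
          = if F (k := k) a x < F a y then ∏ j, p (a j) else 0 := by
        intro a
        rw [Finset.sum_filter]
        rw [Finset.sum_eq_single (F (k := k) a)]
        · simp
        · intro f _ hf
          have hne : ¬ F (k := k) a = f := fun h => hf h.symm
          simp [hne]
        · intro h; exact absurd (Finset.mem_univ _) h
      rw [Finset.sum_congr rfl (fun a _ => h2 a)]
      have h3 : (1 : ℝ) = 1 / c k (s + 2) * c k (s + 2) := by field_simp
      calc (1 : ℝ) = 1 / c k (s + 2) * c k (s + 2) := h3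
        _ ≤ _ := mul_le_mul_of_nonneg_left h1 (by positivity)
  · rw [← Finset.mul_sum, Finset.sum_comm]
    have h2 : ∀ a : Fin n → Fin (s + 1 + 1),
        ∑ f : Q n k → Fin (s + 2), (if F (k := k) a = f then ∏ j, p (a j) else 0)
        = ∏ j, p (a j) := by
      intro a
      rw [Finset.sum_ite_eq]
      simp
    rw [Finset.sum_congr rfl (fun a _ => h2 a)]
    have h3 := Finset.prod_univ_sum (fun _ : Fin n => (univ : Finset (Fin (s + 1 + 1))))
      (fun (_ : Fin n) (b : Fin (s + 1 + 1)) => p b)
    rw [Fintype.piFinset_univ] at h3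
    rw [← h3]
    have h4 : ∑ b : Fin (s + 1 + 1), p b = 1 := by
      rw [Fin.sum_univ_eq_sum_range (fun b => p b), hp1]
    simp [h4]

lemma fdim_le {n k s : ℕ} (hk : 1 ≤ k) : fdim (Q n k) (s + 2) ≤ 1 / c k (s + 2) := by
  obtain ⟨w, hw, hs⟩ := upper (n := n) (s := s) hk
  apply csInf_le
  · refine ⟨0, ?_⟩
    rintro _ ⟨w, hw, rfl⟩
    exact Finset.sum_nonneg fun f _ => hw.nonneg f
  · exact ⟨w, hw, hs⟩

lemma le_fdim {n k s : ℕ} (hk : 1 ≤ k) (hn : k < n) :
    (1 - (k : ℝ) / n) ^ k * (1 / c k (s + 2)) ≤ fdim (Q n k) (s + 2) := by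
  have hc := c_pos k hk s
  have hn0 : (0 : ℝ) < n := by exact_mod_cast (by omega : 0 < n)
  apply le_csInf
  · obtain ⟨w, hw, hs⟩ := upper (n := n) (s := s) hk
    exact ⟨_, w, hw, hs⟩
  · rintro _ ⟨w, hw, rfl⟩
    have h := lower hk hn w hw
    have h1 : (1 - (k : ℝ) / n) ^ k = ((n : ℝ) * ((n : ℝ) - k) ^ k) / (n : ℝ) ^ (k + 1) := by
      have : 1 - (k : ℝ) / n = ((n : ℝ) - k) / n := by field_simp
      rw [this, div_pow, pow_succ]
      field_simp
    rw [h1, mul_one_div, div_div, div_le_iff₀ (by positivity)]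
    calc (n : ℝ) * ((n : ℝ) - k) ^ k ≤ (∑ f, w f) * (c k (s + 2) * (n : ℝ) ^ (k + 1)) := h
      _ = _ := by ring

/-- The fractional `t`-dimensions of the two-layer orders: for all `t ≥ 2` and `k ≥ 1`,
`FD_t(k) = lim_n fdim_t(Q_n^{1,k}) = 1 / c_t`. -/
theorem result (t k : ℕ) (ht : 2 ≤ t) (hk : 1 ≤ k) :
    Tendsto (fun n : ℕ => fdim (Q n k) t) atTop (𝓝 (1 / c k t)) := by
  obtain ⟨s, rfl⟩ : ∃ s, t = s + 2 := ⟨t - 2, by omega⟩
  have h1 : Tendsto (fun n : ℕ => (1 - (k : ℝ) / n) ^ k * (1 / c k (s + 2))) atTop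
      (𝓝 ((1 - 0) ^ k * (1 / c k (s + 2)))) := by
    apply Tendsto.mul_const
    apply Tendsto.pow
    apply Tendsto.sub tendsto_const_nhds
    exact tendsto_const_div_atTop_nhds_zero_nat (k : ℝ)
  have h2 : ((1 : ℝ) - 0) ^ k * (1 / c k (s + 2)) = 1 / c k (s + 2) := by simp
  rw [h2] at h1
  refine tendsto_of_tendsto_of_tendsto_of_le_of_le' h1 tendsto_const_nhds ?_ ?_
  · filter_upwards [eventually_gt_atTop k] with n hn
    exact le_fdim hk hn
  · exact Eventually.of_forall fun n => fdim_le hk

end Pool.Agent.Results.MP_654fb7_co.FractionalTDim
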